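import Pool.Agent.H95.GC.Tw
import Pool.Agent.H44.GD.Ten

/-!
# Transport of endomorphisms and of spans along bijective Tate twists
-/

noncomputable section

namespace GD

open Complex Module TensorProduct

/-! ### The Tate twist of a structure -/

/-- A bilinear morphism is a morphism from the tensor product. -/
theorem isHom_lift {S T R : Str} {μ : S.W →ₗ[ℂ] T.W →ₗ[ℂ] R.W} (hμ : IsBil S T R μ)
    (f : (S.ten T).W →ₗ[ℂ] R.W) (hf : ∀ x y, f (mkT S T x y) = μ x y) : IsHom (S.ten T) R f where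
  wt := hμ.wt.symm
  betti z hz := by
    induction hz using Submodule.span_induction with
    | mem z hz =>
      obtain ⟨x, hx, y, hy, rfl⟩ := hz
      have h1 := hμ.betti x hx y hy
      rw [← hf] at h1
      exact h1
    | zero =>
      have h1 := zero_mem R.B
      rw [← map_zero f] at h1
      exact h1
    | add x y _ _ hx hy =>
      have h1 := add_mem hx hy
      rw [← map_add f] at h1
      exact h1
    | smul q x _ hx =>
      have h1 := R.B_smul q hx
      rw [← map_smul f, rat_smul'] at h1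
      exact h1
  deRham z hz := by
    induction hz using Submodule.span_induction with
    | mem z hz =>
      obtain ⟨x, hx, y, hy, rfl⟩ := hz
      have h1 := hμ.deRham x hx y hy
      rw [← hf] at h1
      exact h1
    | zero =>
      have h1 := zero_mem R.D
      rw [← map_zero f] at h1
      exact h1
    | add x y _ _ hx hy =>
      have h1 := add_mem hx hy
      rw [← map_add f] at h1
      exact h1
    | smul q x _ hx =>
      have h1 := R.D.smul_mem q hx
      rw [Qbar_smul, ← map_smul f, ← Qbar_smul] at h1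
      exact h1
  hodge p z hz := by
    induction hz using Submodule.span_induction with
    | mem z hz =>
      obtain ⟨i, j, rfl, x, hx, y, hy, rfl⟩ := hz
      have h1 := hμ.hodge i j x hx y hy
      rw [← hf] at h1
      exact h1
    | zero =>
      have h1 := zero_mem (R.hodge p)
      rw [← map_zero f] at h1
      exact h1
    | add x y _ _ hx hy =>
      have h1 := add_mem hx hy
      rw [← map_add f] at h1
      exact h1
    | smul q x _ hx =>
      have h1 := (R.hodge p).smul_mem q hx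
      rw [← map_smul f] at h1
      exact h1

/-- The bilinear map `(x, c) ↦ c h(x)`. -/
def twMul {T S : Str} (n : ℕ) (h : T.W →ₗ[ℂ] S.W) : T.W →ₗ[ℂ] (DT.Tate n).W →ₗ[ℂ] S.W :=
  (LinearMap.mk₂ ℂ (fun (x : T.W) (c : ℂ) => c • h x)
    (fun x y c => by rw [map_add, smul_add])
    (fun a x c => by rw [map_smul, smul_comm])
    (fun x c d => add_smul c d (h x))
    (fun a x c => mul_smul a c (h x)) : T.W →ₗ[ℂ] ℂ →ₗ[ℂ] S.W)

theorem twMul_apply {T S : Str} (n : ℕ) (h : T.W →ₗ[ℂ] S.W) (x : T.W) (c : ℂ) :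
    twMul n h x c = c • h x := rfl

theorem IsTwist.isBil {T S : Str} {n : ℕ} {h : T.W →ₗ[ℂ] S.W} (hh : IsTwist T S n h) :
    IsBil T (DT.Tate n) S (twMul n h) where
  wt := hh.wt
  betti x hx c hc := by
    obtain ⟨q, rfl⟩ := DT.mem_tate_B.1 hc
    rw [twMul_apply]
    exact S.B_smul q (hh.betti x hx)
  deRham x hx c hc := by
    obtain ⟨a, rfl⟩ := DT.mem_tate_D.1 hc
    rw [twMul_apply, mul_smul]
    exact S.D.smul_mem a (hh.deRham x hx)
  hodge i j x hx c hc := by
    rcases DT.mem_tate_hodge.1 hc with hj | hc0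
    · rw [twMul_apply, hj]
      exact Submodule.smul_mem _ _ (hh.hodge i x hx)
    · rw [hc0, twMul_apply, zero_smul]
      exact zero_mem _

/-- A morphism to a Tate twist is a morphism from a tensor product with a Tate structure. -/
theorem IsTwist.exists_ten {T S : Str} {n : ℕ} {h : T.W →ₗ[ℂ] S.W} (hh : IsTwist T S n h) :
    ∃ h' : (T.ten (DT.Tate n)).W →ₗ[ℂ] S.W, IsHom (T.ten (DT.Tate n)) S h' ∧
      ∀ x, ∃ y, h' y = h x := by
  let h' : (T.ten (DT.Tate n)).W →ₗ[ℂ] S.W := TensorProduct.lift (twMul n h)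
  have hh' : ∀ x y, h' (mkT T (DT.Tate n) x y) = twMul n h x y := fun x y =>
    TensorProduct.lift.tmul x y
  refine ⟨h', isHom_lift hh.isBil h' hh', fun x => ⟨mkT T (DT.Tate n) x (1 : ℂ), ?_⟩⟩
  rw [hh', twMul_apply, one_smul]

/-! ### Transport of endomorphisms -/

section conj

variable {S S' : Str} {n : ℕ} {L : S.W →ₗ[ℂ] S'.W} (hL : IsTwist S S' n L)
  (hb : Function.Bijective L)

/-- The linear equivalence given by a bijective twist. -/
def IsTwist.equiv (hb : Function.Bijective L) : S.W ≃ₗ[ℂ] S'.W := LinearEquiv.ofBijective L hb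

theorem IsTwist.equiv_apply (x : S.W) : IsTwist.equiv hb x = L x := rfl

/-- The transport of endomorphisms. -/
def IsTwist.tr (hb : Function.Bijective L) (f : Module.End ℂ S.W) : Module.End ℂ S'.W :=
  (IsTwist.equiv hb).conj f

theorem IsTwist.tr_apply (f : Module.End ℂ S.W) (x : S.W) :
    IsTwist.tr hb f (L x) = L (f x) := by
  rw [IsTwist.tr, LinearEquiv.conj_apply_apply, ← IsTwist.equiv_apply hb,
    LinearEquiv.symm_apply_apply, IsTwist.equiv_apply]

theorem IsTwist.tr_ext {f : Module.End ℂ S.W} {f' : Module.End ℂ S'.W}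
    (h : ∀ x, f' (L x) = L (f x)) : f' = IsTwist.tr hb f := by
  ext y
  obtain ⟨x, rfl⟩ := hb.2 y
  rw [h, IsTwist.tr_apply]

theorem IsTwist.tr_pow (f : Module.End ℂ S.W) (k : ℕ) :
    (IsTwist.tr hb f) ^ k = IsTwist.tr hb (f ^ k) := by
  refine IsTwist.tr_ext hb fun x => ?_
  induction k with
  | zero => rfl
  | succ k ih =>
    rw [pow_succ', pow_succ', Module.End.mul_apply, Module.End.mul_apply, ih, IsTwist.tr_apply]

include hL in
/-- Forward transport of endomorphisms. -/
theorem IsTwist.tr_hom {f : Module.End ℂ S.W} (hf : IsHom S S f) :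
    IsHom S' S' (IsTwist.tr hb f) where
  wt := rfl
  betti y hy := by
    obtain ⟨x, rfl⟩ := hb.2 y
    rw [IsTwist.tr_apply]
    exact hL.betti _ (hf.betti _ ((hL.strict hb.1 x).1 hy))
  deRham y hy := by
    have h0 : (2 * Real.pi * I : ℂ) ^ n ≠ 0 := two_pi_I_ne n
    obtain ⟨x, hx⟩ := hb.2 (((2 * Real.pi * I : ℂ) ^ n)⁻¹ • y)
    have h1 : y = (2 * Real.pi * I : ℂ) ^ n • L x := by rw [hx, smul_inv_smul₀ h0]
    rw [h1] at hy ⊢
    rw [map_smul, IsTwist.tr_apply]
    exact hL.deRham _ (hf.deRham _ ((hL.strict hb.1 x).2.1 hy))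
  hodge q y hy := by
    obtain ⟨x, rfl⟩ := hb.2 y
    rw [IsTwist.tr_apply]
    by_cases hq : n ≤ q
    · obtain ⟨p, rfl⟩ := Nat.exists_eq_add_of_le hq
      rw [add_comm] at hy ⊢
      exact hL.hodge p _ (hf.hodge p _ ((hL.strict hb.1 x).2.2 p hy))
    · have key : DT.hproj S' q ∘ₗ L = 0 := by
        refine DT.ext_hodge fun p y hy => ?_
        rw [LinearMap.comp_apply, LinearMap.zero_apply,
          DT.hproj_ne _ (by omega : p + n ≠ q) (hL.hodge p y hy)]
      have h1 := LinearMap.congr_fun key x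
      rw [LinearMap.comp_apply, DT.hproj_self _ hy, LinearMap.zero_apply] at h1
      have h2 : x = 0 := hb.1 (by rw [h1, map_zero])
      rw [h2, map_zero, map_zero]
      exact zero_mem _

include hL in
/-- Backward transport of endomorphisms. -/
theorem IsTwist.exists_tr {f' : Module.End ℂ S'.W} (hf' : IsHom S' S' f') :
    ∃ f : Module.End ℂ S.W, IsHom S S f ∧ f' = IsTwist.tr hb f := by
  refine ⟨(IsTwist.equiv hb).symm.conj f', ?_, ?_⟩
  swap
  · rw [IsTwist.tr]
    ext x
    simp [LinearEquiv.conj_apply_apply]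
  have h1 : ∀ x, L ((IsTwist.equiv hb).symm.conj f' x) = f' (L x) := by
    intro x
    rw [LinearEquiv.conj_apply_apply, LinearEquiv.symm_symm, ← IsTwist.equiv_apply hb,
      LinearEquiv.apply_symm_apply, IsTwist.equiv_apply]
  refine ⟨rfl, fun x hx => ?_, fun x hx => ?_, fun p x hx => ?_⟩
  · refine (hL.strict hb.1 _).1 ?_
    rw [h1]
    exact hf'.betti _ (hL.betti x hx)
  · refine (hL.strict hb.1 _).2.1 ?_
    rw [h1, ← map_smul]
    exact hf'.deRham _ (hL.deRham x hx)
  · refine (hL.strict hb.1 _).2.2 p ?_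
    rw [h1]
    exact hf'.hodge _ _ (hL.hodge p x hx)

include hL in
/-- Backward transport of central actions. -/
theorem IsTwist.exists_central {K : Type} [Field K] {κ : K →ₙ+* Module.End ℂ S'.W}
    (hκ : CentralAction κ) : ∃ κ' : K →ₙ+* Module.End ℂ S.W, CentralAction κ' ∧
      (∀ a, κ a = IsTwist.tr hb (κ' a)) ∧
      ∀ τ, Set.BijOn L (eigenpart κ' τ) (eigenpart κ τ) := by
  obtain ⟨κ', h1, h2, h3⟩ := hL.exists_act hb κ hκ.2.1
  refine ⟨κ', ⟨fun h0 => hκ.1 ?_, h1, fun f hf a => ?_⟩, fun a => IsTwist.tr_ext hb fun x =>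
    (h2 a x).symm, h3⟩
  · ext y
    obtain ⟨x, rfl⟩ := hb.2 y
    rw [← h2, h0, LinearMap.zero_apply, map_zero, LinearMap.zero_apply]
  · ext x
    apply hb.1
    have h4 := LinearMap.congr_fun (hκ.2.2 _ (hL.tr_hom hb hf) a) (L x)
    rw [Module.End.mul_apply, Module.End.mul_apply, IsTwist.tr_apply, ← h2, ← h2,
      IsTwist.tr_apply] at h4
    exact h4

theorem IsTwist.tr_eig {N : ℕ} {g : Module.End ℂ S.W} (a : ZMod N) (l : (ZMod N)ˣ) :
    Set.BijOn L (eigPiece N S g a l) (eigPiece N S' (IsTwist.tr hb g) a l) := by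
  refine ⟨fun x hx => ?_, hb.1.injOn, fun y hy => ?_⟩
  · rw [SetLike.mem_coe, eigPiece, eigSpace, Module.End.mem_eigenspace_iff] at hx ⊢
    rw [IsTwist.tr_apply, hx, map_smul]
  · obtain ⟨x, rfl⟩ := hb.2 y
    refine ⟨x, ?_, rfl⟩
    rw [SetLike.mem_coe, eigPiece, eigSpace, Module.End.mem_eigenspace_iff] at hy ⊢
    apply hb.1
    rw [← IsTwist.tr_apply hb, hy, map_smul]

end conj

end GD
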