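import Pool.Agent.H95.GC.KnownTr
import Pool.Agent.H65.GC.Ab
import Pool.Agent.H75.GC.Good

/-!
# The cohomology of a good variety is known
-/

noncomputable section

namespace GD

open CategoryTheory AlgebraicGeometry

variable {𝓗 : Cohomology}

/-- The cohomology of a good variety is known in all degrees. -/
theorem known_of_isGood (hF : 𝓗.Facts) {X : Var} {F : Type} [Field F] {e : F →+* ℂ}
    (h : 𝓗.IsGood X e) (i : ℕ) : 𝓗.Known (𝓗.H X i) e := by
  obtain ⟨d, hd, h⟩ := h
  have key : ∀ i, i ≤ d → 𝓗.Known (𝓗.H X i) e := by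
    intro i hi
    by_cases hi0 : i = 0
    · subst hi0
      exact known_of_abSpan (abSpan_zero hF X) e
    by_cases hi1 : i = 1
    · subst hi1
      exact known_of_abSpan (abSpan_one X) e
    exact 𝓗.known_of_degAut (fun {_} hP {_} hg {_} _ hN a hle =>
      𝓗.inSpan_eig_of_le hP hg hN a hle) (abSpan_zero hF) abSpan_one hF hd hi
      (h i (by omega) hi)
  by_cases hi : i ≤ d
  · exact key i hi
  by_cases hi2 : i ≤ 2 * d
  · obtain ⟨j, hj, rfl⟩ : ∃ j, j < d ∧ i = 2 * d - j := ⟨2 * d - i, by omega, by omega⟩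
    obtain ⟨L, hL1, hL2, -⟩ := hF.lefschetz d X hd 1 1 one_pos (one_pow 1) j hj
    exact (key j hj.le).twist hL1 hL2 (𝓗.polarised X j) (𝓗.polarised X (2 * d - j))
  · exact known_of_subsingleton (hF.top d X hd i (by omega)) e

end GD
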