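import Pool.Agent.H95.GC.Trans

/-!
# Transport of known structures along bijective Tate twists
-/

noncomputable section

namespace GD

open Complex Module CategoryTheory AlgebraicGeometry

variable {𝓗 : Cohomology}

theorem IsTwist.comp_hom {T S S' : Str} {n : ℕ} {L : S.W →ₗ[ℂ] S'.W} (hL : IsTwist S S' n L)
    {f : T.W →ₗ[ℂ] S.W} (hf : IsHom T S f) : IsTwist T S' n (L ∘ₗ f) where
  wt := by rw [hL.wt, hf.wt]
  betti x hx := hL.betti _ (hf.betti x hx)
  deRham x hx := hL.deRham _ (hf.deRham x hx)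
  hodge p x hx := hL.hodge p _ (hf.hodge p x hx)

/-- The part of abelian type of a twist. -/
theorem IsTwist.abSpan_le {S S' : Str} {n : ℕ} {L : S.W →ₗ[ℂ] S'.W} (hL : IsTwist S S' n L) :
    (𝓗.abSpan S).map L ≤ 𝓗.abSpan S' := by
  rw [Cohomology.abSpan, Submodule.map_span, Submodule.span_le]
  rintro _ ⟨_, ⟨T, f, t, hT, hf, rfl⟩, rfl⟩
  obtain ⟨h', hh', hy⟩ := (hL.comp_hom hf).exists_ten
  obtain ⟨y, hy⟩ := hy t
  refine Submodule.subset_span ⟨_, h', y, gen_ten hT (Gen.base _ (Or.inr ⟨n, rfl⟩)), hh', ?_⟩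
  rw [hy]
  rfl

/-- The map `c ↦ c x`. -/
def classMap {S : Str} (r : ℕ) (x : S.W) : (DT.Tate r).W →ₗ[ℂ] S.W :=
  (LinearMap.toSpanSingleton ℂ S.W x : ℂ →ₗ[ℂ] S.W)

theorem classMap_apply {S : Str} (r : ℕ) (x : S.W) (c : ℂ) : classMap r x c = c • x := rfl

/-- A Tate class is the image of a morphism from a Tate structure. -/
theorem isHom_classMap {S : Str} {x : S.W} {r : ℕ} (h1 : x ∈ S.B) (h2 : S.wt = 2 * r)
    (h3 : x ∈ S.hodge r) (h4 : (2 * Real.pi * I : ℂ) ^ r • x ∈ S.D) :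
    IsHom (DT.Tate r) S (classMap r x) where
  wt := h2.symm
  betti c hc := by
    obtain ⟨q, rfl⟩ := DT.mem_tate_B.1 hc
    exact S.B_smul q h1
  deRham c hc := by
    obtain ⟨a, rfl⟩ := DT.mem_tate_D.1 hc
    rw [classMap_apply, mul_smul]
    exact S.D.smul_mem a h4
  hodge p c hc := by
    rcases DT.mem_tate_hodge.1 hc with hj | hc0
    · rw [hj]
      exact Submodule.smul_mem _ _ h3
    · rw [hc0, classMap_apply, zero_smul]
      exact zero_mem _

theorem tateSpan_le_ab (S : Str) : tateSpan S ≤ 𝓗.abSpan S := by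
  rw [tateSpan, Submodule.span_le]
  rintro x ⟨h1, r, h2, h3, h4⟩
  refine Submodule.subset_span ⟨DT.Tate r, classMap r x, (1 : ℂ), Gen.base _ (Or.inr ⟨r, rfl⟩),
    isHom_classMap h1 h2 h3 h4, ?_⟩
  exact (one_smul ℂ x).symm

theorem abSpan_zero (hF : 𝓗.Facts) (X : Var) : 𝓗.abSpan (𝓗.H X 0) = ⊤ := by
  rw [eq_top_iff, ← tateSpan_zero (𝓗.wt X 0) (hF.zero X)]
  exact tateSpan_le_ab _

theorem abSpan_gen {S : Str} (h : Gen 𝓗.FirstDegree S) : 𝓗.abSpan S = ⊤ := by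
  rw [eq_top_iff]
  intro x _
  exact Submodule.subset_span ⟨S, LinearMap.id, x, h, IsHom.id S, rfl⟩

theorem abSpan_one (X : Var) : 𝓗.abSpan (𝓗.H X 1) = ⊤ :=
  abSpan_gen (Gen.base _ (Or.inl ⟨X, rfl⟩))

/-- Structures of abelian type are known. -/
theorem known_of_abSpan {S : Str} (h : 𝓗.abSpan S = ⊤) {F : Type} [Field F] (e : F →+* ℂ) :
    𝓗.Known S e := by
  intro K _ _ i _ _ _ κ _
  refine Or.inr fun a => ⟨0, zero_mem _, fun x => ?_⟩
  rw [h]
  exact Submodule.mem_top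

/-- A structure without vectors is known. -/
theorem known_of_subsingleton {S : Str} (h : Subsingleton S.W) {F : Type} [Field F]
    (e : F →+* ℂ) : 𝓗.Known S e := by
  refine known_of_abSpan ?_ e
  rw [eq_top_iff]
  intro x _
  rw [Subsingleton.elim x 0]
  exact zero_mem _

theorem inSpan_twist {N : ℕ} [NeZero N] {S S' : Str} {n : ℕ} {f : S.W →ₗ[ℂ] S'.W}
    (hf : IsTwist S S' n f) {U : (ZMod N)ˣ → Submodule ℂ S.W} {U' : (ZMod N)ˣ → Submodule ℂ S'.W}
    (hU : IsPiece N S U) (hU' : IsPiece N S' U') (hb : ∀ l, Set.BijOn f (U l) (U' l)) :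
    𝓗.InSpan N S U ↔ 𝓗.InSpan N S' U' := by
  constructor
  · intro h V _ _ δ hδ h1 h2 h3
    rw [← hδ.iso _ _ n f _ _ hf hU hU' hb]
    exact h V δ hδ h1 h2 h3
  · intro h V _ _ δ hδ h1 h2 h3
    rw [hδ.iso _ _ n f _ _ hf hU hU' hb]
    exact h V δ hδ h1 h2 h3

section tr

variable {S S' : Str} {n : ℕ} {L : S.W →ₗ[ℂ] S'.W}

theorem IsTwist.tr_one (hb : Function.Bijective L) : IsTwist.tr hb (1 : Module.End ℂ S.W) = 1 :=
  (IsTwist.tr_ext hb fun _ => rfl).symm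

theorem IsTwist.tr_inj (hb : Function.Bijective L) {f g : Module.End ℂ S.W}
    (h : IsTwist.tr hb f = IsTwist.tr hb g) : f = g := by
  ext x
  apply hb.1
  rw [← IsTwist.tr_apply hb, ← IsTwist.tr_apply hb, h]

/-- Transport of good automorphisms. -/
theorem IsTwist.goodAut (hL : IsTwist S S' n L) (hb : Function.Bijective L)
    (hP : Nonempty (Pol S)) (hP' : Nonempty (Pol S')) {g : Module.End ℂ S.W}
    (hg : g ∈ 𝓗.goodAut S) : IsTwist.tr hb g ∈ 𝓗.goodAut S' := by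
  obtain ⟨h1, M, hM, hgM, h3⟩ := hg
  have h4 : ∀ k, (IsTwist.tr hb g) ^ k = 1 ↔ g ^ k = 1 := by
    intro k
    rw [IsTwist.tr_pow]
    constructor
    · intro h
      exact IsTwist.tr_inj hb (h.trans (IsTwist.tr_one hb).symm)
    · intro h
      rw [h, IsTwist.tr_one]
  refine ⟨hL.tr_hom hb h1, M, hM, (h4 M).2 hgM, fun N _ h5 h6 a => ?_⟩
  have h7 : g ^ N = 1 := by
    obtain ⟨c, rfl⟩ := h6
    rw [pow_mul, hgM, one_pow]
  exact (inSpan_twist hL (isPiece_eig hP h1 h7 a) (isPiece_eig hP' (hL.tr_hom hb h1)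
    ((h4 N).2 h7) a) (IsTwist.tr_eig hb a)).1 (h3 N h5 h6 a)

theorem IsTwist.tr_span (hL : IsTwist S S' n L) (hb : Function.Bijective L)
    (hP : Nonempty (Pol S)) (hP' : Nonempty (Pol S')) {y : Module.End ℂ S.W}
    (hy : y ∈ Submodule.span ℚ (𝓗.goodAut S)) :
    IsTwist.tr hb y ∈ Submodule.span ℚ (𝓗.goodAut S') := by
  let T : Module.End ℂ S.W →ₗ[ℚ] Module.End ℂ S'.W :=
    ((IsTwist.equiv hb).conj : Module.End ℂ S.W →ₗ[ℂ] Module.End ℂ S'.W).restrictScalars ℚ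
  have h1 : (Submodule.span ℚ (𝓗.goodAut S)).map T ≤ Submodule.span ℚ (𝓗.goodAut S') := by
    rw [Submodule.map_span]
    refine Submodule.span_mono ?_
    rintro _ ⟨g, hg, rfl⟩
    exact hL.goodAut hb hP hP' hg
  exact h1 ⟨y, hy, rfl⟩

/-- Known structures are transported along bijective Tate twists. -/
theorem Cohomology.Known.twist (hL : IsTwist S S' n L) (hb : Function.Bijective L)
    (hP : Nonempty (Pol S)) (hP' : Nonempty (Pol S')) {F : Type} [Field F] {e : F →+* ℂ}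
    (h : 𝓗.Known S e) : 𝓗.Known S' e := by
  intro K _ _ i him hG hC κ hκ
  obtain ⟨κ', hκ', htr, hbij⟩ := hL.exists_central hb hκ
  rcases h K i him hG hC κ' hκ' with ⟨N, hN, U, hl, hU, hs⟩ | h2
  · have hU' : IsFieldPiece N S' (e.comp i) κ (fun l => (U l).map L) := by
      intro l τ hτ
      change (U l).map L = _
      rw [hU l τ hτ, ← gc_eq_map (hbij τ)]
    refine Or.inl ⟨N, hN, _, hl, hU', ?_⟩
    exact (inSpan_twist hL (isPiece_field hP hl hκ'.2.1 hU) (isPiece_field hP' hl hκ.2.1 hU')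
      fun l => gc_bijOn_map fun x _ h0 => hb.1 (by rw [h0, map_zero])).1 hs
  · refine Or.inr fun a => ?_
    obtain ⟨y, hy, hy'⟩ := h2 a
    refine ⟨IsTwist.tr hb y, ?_, fun z => ?_⟩
    · exact hL.tr_span hb hP hP' hy
    · obtain ⟨x, rfl⟩ := hb.2 z
      rw [htr, IsTwist.tr_apply, IsTwist.tr_apply, ← map_sub]
      exact hL.abSpan_le (Submodule.mem_map_of_mem (hy' x))

end tr

end GD
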