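import Pool.Agent.H65.GC.Twist
import Pool.Agent.H65.GC.Eig
import Pool.Agent.H44.GD.Sub2
import Pool.Agent.H44.GD.Conn2
import Pool.Agent.H27.GD.Red

/-!
# Transport of pieces along Tate twists
-/

noncomputable section

namespace GD

open Complex Module

theorem IsHom.isTwist {S S' : Str} {f : S.W →ₗ[ℂ] S'.W} (hf : IsHom S S' f) :
    IsTwist S S' 0 f where
  wt := by rw [hf.wt, mul_zero, add_zero]
  betti := hf.betti
  deRham x hx := by
    rw [pow_zero, one_smul]
    exact hf.deRham x hx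
  hodge p x hx := hf.hodge p x hx

theorem gc_bijOn_map {W W' : Type} [AddCommGroup W] [Module ℂ W] [AddCommGroup W'] [Module ℂ W']
    {f : W →ₗ[ℂ] W'} {U : Submodule ℂ W} (hinj : ∀ x ∈ U, f x = 0 → x = 0) :
    Set.BijOn f U (U.map f) := by
  refine ⟨fun x hx => ⟨x, hx, rfl⟩, fun x hx y hy h => ?_, fun y hy => hy⟩
  have h1 := hinj (x - y) (U.sub_mem hx hy) (by rw [map_sub, h, sub_self])
  exact sub_eq_zero.1 h1

theorem gc_eq_map {W W' : Type} [AddCommGroup W] [Module ℂ W] [AddCommGroup W'] [Module ℂ W']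
    {f : W →ₗ[ℂ] W'} {U : Submodule ℂ W} {U' : Submodule ℂ W'} (h : Set.BijOn f U U') :
    U' = U.map f := by
  apply le_antisymm
  · intro y hy
    obtain ⟨x, hx, rfl⟩ := h.surjOn hy
    exact ⟨x, hx, rfl⟩
  · rintro _ ⟨x, hx, rfl⟩
    exact h.mapsTo hx

theorem gc_finrank_bij {W W' : Type} [AddCommGroup W] [Module ℂ W] [AddCommGroup W']
    [Module ℂ W'] {f : W →ₗ[ℂ] W'} {U : Submodule ℂ W} {U' : Submodule ℂ W'}
    (h : Set.BijOn f U U') : finrank ℂ U' = finrank ℂ U := by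
  rw [gc_eq_map h]
  have h1 : Function.Injective (f.domRestrict U) := by
    intro x y hxy
    exact Subtype.ext (h.injOn x.2 y.2 hxy)
  have h2 := LinearMap.finrank_range_of_inj h1
  rw [LinearMap.range_domRestrict] at h2
  exact h2

/-- The image of a piece is a piece. -/
theorem IsPiece.of_bijOn {N : ℕ} {S S' : Str} {n : ℕ} {f : S.W →ₗ[ℂ] S'.W}
    (hf : IsTwist S S' n f) {U : (ZMod N)ˣ → Submodule ℂ S.W} {U' : (ZMod N)ˣ → Submodule ℂ S'.W}
    (hU : IsPiece N S U) (hb : ∀ l, Set.BijOn f (U l) (U' l)) (hP : Nonempty (Pol S')) :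
    IsPiece N S' U' where
  pol := hP
  betti l := by
    rw [gc_eq_map (hb l)]
    refine (Submodule.map_mono (hU.betti l)).trans ?_
    rw [Submodule.map_span]
    refine Submodule.span_mono ?_
    rintro _ ⟨x, hx, rfl⟩
    exact ⟨hf.map_Bbar hx.1, ⟨x, hx.2, rfl⟩⟩
  deRham l := by
    rw [gc_eq_map (hb l)]
    refine (Submodule.map_mono (hU.deRham l)).trans ?_
    rw [Submodule.map_span, Submodule.span_le]
    rintro _ ⟨x, hx, rfl⟩
    have h0 : (2 * Real.pi * I : ℂ) ^ n ≠ 0 := two_pi_I_ne n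
    have h1 : f x = ((2 * Real.pi * I : ℂ) ^ n)⁻¹ • ((2 * Real.pi * I : ℂ) ^ n • f x) := by
      rw [inv_smul_smul₀ h0]
    rw [h1]
    refine Submodule.smul_mem _ _ (Submodule.subset_span ⟨hf.deRham x hx.1, ?_⟩)
    exact Submodule.smul_mem _ _ ⟨x, hx.2, rfl⟩
  hodge l := by
    rw [gc_eq_map (hb l)]
    refine (Submodule.map_mono (hU.hodge l)).trans ?_
    rw [Submodule.map_iSup]
    refine iSup_le fun p => ?_
    rintro _ ⟨x, hx, rfl⟩
    exact Submodule.mem_iSup_of_mem (p + n) ⟨⟨x, hx.1, rfl⟩, hf.hodge p x hx.2⟩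
  conj l := by
    intro y hy
    obtain ⟨x, hx, rfl⟩ := (hb l).surjOn hy
    rw [← DT.map_conj hf.betti x]
    exact (hb (-l)).mapsTo (hU.conj l x hx)
  rank l l' := by
    rw [gc_finrank_bij (hb l), gc_finrank_bij (hb l')]
    exact hU.rank l l'

/-- An injective morphism to a twist is strict. -/
theorem IsTwist.strict {S S' : Str} {n : ℕ} {f : S.W →ₗ[ℂ] S'.W} (hf : IsTwist S S' n f)
    (hi : Function.Injective f) (x : S.W) :
    (f x ∈ S'.B → x ∈ S.B) ∧ ((2 * Real.pi * I : ℂ) ^ n • f x ∈ S'.D → x ∈ S.D) ∧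
      ∀ p, f x ∈ S'.hodge (p + n) → x ∈ S.hodge p := by
  refine ⟨fun h => ?_, fun h => ?_, fun p h => ?_⟩
  · have hM : imgQ f S.B ≤ S'.B := by
      rintro _ ⟨y, hy, rfl⟩
      exact hf.betti y hy
    have h1 : f x ∈ S'.cx (imgQ f S.B) := by
      rw [cx_imgQ, Str.cx_B]
      exact ⟨x, Submodule.mem_top, rfl⟩
    obtain ⟨y, hy, hxy⟩ := mem_of_cx hM h1 h
    rwa [← hi hxy]
  · have h0 : (2 * Real.pi * I : ℂ) ^ n ≠ 0 := two_pi_I_ne n
    have hg : ∀ w ∈ S.D, ((2 * Real.pi * I : ℂ) ^ n • f) w ∈ S'.D := fun w hw => hf.deRham w hw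
    apply S.mem_D_of_nabD
    intro δ
    have h1 : ((2 * Real.pi * I : ℂ) ^ n • f) (S.nabD δ x) = 0 := by
      rw [← nabD_nat δ _ hg, LinearMap.smul_apply, S'.nabD_D δ h]
    rw [LinearMap.smul_apply] at h1
    apply hi
    rw [map_zero]
    exact (smul_eq_zero.1 h1).resolve_left h0
  · have key : DT.hproj S' (p + n) ∘ₗ f = f ∘ₗ DT.hproj S p := by
      refine DT.ext_hodge fun q y hy => ?_
      rw [LinearMap.comp_apply, LinearMap.comp_apply]
      by_cases hq : q = p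
      · subst hq
        rw [DT.hproj_self _ (hf.hodge q y hy), DT.hproj_self _ hy]
      · rw [DT.hproj_ne _ (by omega : q + n ≠ p + n) (hf.hodge q y hy), DT.hproj_ne _ hq hy,
          map_zero]
    have h1 : f x = f (DT.hproj S p x) := by
      have h2 := LinearMap.congr_fun key x
      rw [LinearMap.comp_apply, LinearMap.comp_apply, DT.hproj_self _ h] at h2
      exact h2
    rw [hi h1]
    exact DT.hproj_mem S p x

/-- Transport of an action along a bijective twist. -/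
theorem IsTwist.exists_act {S S' : Str} {n : ℕ} {f : S.W →ₗ[ℂ] S'.W} (hf : IsTwist S S' n f)
    (hb : Function.Bijective f) {K : Type} [Field K] (κ : K →ₙ+* Module.End ℂ S'.W)
    (hκ : ∀ a, IsHom S' S' (κ a)) : ∃ κ' : K →ₙ+* Module.End ℂ S.W, (∀ a, IsHom S S (κ' a)) ∧
      (∀ a x, f (κ' a x) = κ a (f x)) ∧
      ∀ τ, Set.BijOn f (eigenpart κ' τ) (eigenpart κ τ) := by
  let e : S.W ≃ₗ[ℂ] S'.W := LinearEquiv.ofBijective f hb
  have he : ∀ x, e x = f x := fun x => rfl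
  let κ' : K →ₙ+* Module.End ℂ S.W :=
    { toFun := fun a => e.symm.toLinearMap ∘ₗ κ a ∘ₗ e.toLinearMap
      map_mul' := fun a b => by
        ext x
        simp
      map_zero' := by
        ext x
        simp
      map_add' := fun a b => by
        ext x
        simp }
  have hκ' : ∀ a x, f (κ' a x) = κ a (f x) := by
    intro a x
    change e (e.symm (κ a (e x))) = _
    rw [LinearEquiv.apply_symm_apply]
    rfl
  refine ⟨κ', fun a => ⟨rfl, fun x hx => ?_, fun x hx => ?_, fun p x hx => ?_⟩, hκ',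
    fun τ => ?_⟩
  · refine (hf.strict hb.1 _).1 ?_
    rw [hκ']
    exact (hκ a).betti _ (hf.betti x hx)
  · refine (hf.strict hb.1 _).2.1 ?_
    rw [hκ', ← map_smul]
    exact (hκ a).deRham _ (hf.deRham x hx)
  · refine (hf.strict hb.1 _).2.2 p ?_
    rw [hκ']
    exact (hκ a).hodge _ _ (hf.hodge p x hx)
  · refine ⟨fun x hx => ?_, hb.1.injOn, fun y hy => ?_⟩
    · rw [SetLike.mem_coe, mem_eigenpart] at hx ⊢
      intro a
      rw [← hκ', hx a, map_smul]
    · obtain ⟨x, rfl⟩ := hb.2 y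
      refine ⟨x, ?_, rfl⟩
      rw [SetLike.mem_coe, mem_eigenpart] at hy ⊢
      intro a
      apply hb.1
      rw [hκ', hy a, map_smul]

/-- The Tate classes of degree zero. -/
theorem tateSpan_zero {S : Str} (hw : S.wt = 0) (h : ∀ x ∈ S.B, x ∈ S.D) : tateSpan S = ⊤ := by
  rw [eq_top_iff, ← Str.cx_B (S := S)]
  refine Submodule.span_mono fun x hx => ⟨hx, 0, by rw [hw], ?_, ?_⟩
  · have h0 := DT.sum_hproj S x
    rw [hw, zero_add, Finset.sum_range_one] at h0
    rw [← h0]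
    exact DT.hproj_mem S 0 x
  · rw [pow_zero, one_smul]
    exact h x hx

theorem IsTwist.tateSpan_le {S S' : Str} {n : ℕ} {f : S.W →ₗ[ℂ] S'.W} (hf : IsTwist S S' n f) :
    (tateSpan S).map f ≤ tateSpan S' := by
  rw [tateSpan, Submodule.map_span]
  refine Submodule.span_mono ?_
  rintro _ ⟨x, ⟨hx, r, hr, hr1, hr2⟩, rfl⟩
  refine ⟨hf.betti x hx, r + n, ?_, hf.hodge r x hr1, ?_⟩
  · rw [hf.wt, hr]
    ring
  · have h1 := hf.deRham _ hr2
    rwa [map_smul, smul_smul, ← pow_add, add_comm n r] at h1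

end GD
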